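import Pool.Agent.W189.NF.LocalPoly

/-!
# Local factors: minimal models
-/

set_option autoImplicit false
set_option linter.unusedSectionVars false

namespace Pool.Agent.Y698

open WeierstrassCurve Pool.Agent.W189.NF

/-- affine points -/
def AP {k : Type*} [CommRing k] (V : WeierstrassCurve k) : Type _ :=
  {Q : k × k // V.toAffine.Equation Q.1 Q.2}

lemma AP_smul {k : Type*} [Field k] (V : WeierstrassCurve k) (C : VariableChange k) (x y : k) :
    (C • V).toAffine.Equation x y ↔
      V.toAffine.Equation ((C.u : k) ^ 2 * x + C.r) ((C.u : k) ^ 3 * y + (C.u : k) ^ 2 * C.s * x + C.t) := by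
  rw [WeierstrassCurve.Affine.equation_iff', WeierstrassCurve.Affine.equation_iff']
  have hu : (C.u : k) ≠ 0 := C.u.ne_zero
  have e : ((C.u⁻¹ : kˣ) : k) = (C.u : k)⁻¹ := Units.val_inv_eq_inv_val _
  rw [variableChange_a₁, variableChange_a₂, variableChange_a₃, variableChange_a₄,
    variableChange_a₆, e]
  generalize (C.u : k) = u at *
  have h1 : ∀ z : k, z = 0 ↔ u ^ 6 * z = 0 := by
    intro z
    rw [mul_eq_zero, or_iff_right (pow_ne_zero 6 hu)]
  rw [h1]
  apply Eq.congr_left
  field_simp
  ring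

/-- the variable change of the affine points -/
noncomputable def AP_equiv {k : Type*} [Field k] (V : WeierstrassCurve k) (C : VariableChange k) :
    AP (C • V) ≃ AP V where
  toFun Q := ⟨((C.u : k) ^ 2 * Q.1.1 + C.r, (C.u : k) ^ 3 * Q.1.2 + (C.u : k) ^ 2 * C.s * Q.1.1 + C.t),
    (AP_smul V C _ _).1 Q.2⟩
  invFun Q := ⟨((Q.1.1 - C.r) / (C.u : k) ^ 2,
    (Q.1.2 - C.s * (Q.1.1 - C.r) - C.t) / (C.u : k) ^ 3), by
      rw [AP_smul]
      have hu : (C.u : k) ≠ 0 := C.u.ne_zero
      have e1 : (C.u : k) ^ 2 * ((Q.1.1 - C.r) / (C.u : k) ^ 2) + C.r = Q.1.1 := by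
        field_simp
        ring
      have e2 : (C.u : k) ^ 3 * ((Q.1.2 - C.s * (Q.1.1 - C.r) - C.t) / (C.u : k) ^ 3) +
          (C.u : k) ^ 2 * C.s * ((Q.1.1 - C.r) / (C.u : k) ^ 2) + C.t = Q.1.2 := by
        field_simp
        ring
      rw [e1, e2]
      exact Q.2⟩
  left_inv Q := by
    have hu : (C.u : k) ≠ 0 := C.u.ne_zero
    apply Subtype.ext
    apply Prod.ext
    · simp only
      field_simp
      ring
    · simp only
      field_simp
      ring
  right_inv Q := by
    have hu : (C.u : k) ≠ 0 := C.u.ne_zero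
    apply Subtype.ext
    apply Prod.ext
    · simp only
      field_simp
      ring
    · simp only
      field_simp
      ring

/-- the points of an elliptic curve over a finite field -/
lemma card_point {k : Type} [Field k] [Finite k] (V : WeierstrassCurve k) (hV : V.Δ ≠ 0) :
    Nat.card V.toAffine.Point = Nat.card (AP V) + 1 := by
  have e : V.toAffine.Point ≃ Option (AP V) :=
    { toFun := ptMap V
      invFun := fun Q => match Q with
        | none => .zero
        | some Q => .some Q.1.1 Q.1.2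
            ((WeierstrassCurve.Affine.equation_iff_nonsingular_of_Δ_ne_zero hV).1 Q.2)
      left_inv := fun P => by cases P <;> rfl
      right_inv := fun Q => by cases Q <;> rfl }
  have : Finite (AP V) := by
    unfold AP
    infer_instance
  rw [Nat.card_congr e, Finite.card_option]

section Local

variable (R : Type) [CommRing R] [IsDomain R] [IsDiscreteValuationRing R] {L : Type}
  [Field L] [Algebra R L] [IsFractionRing R L]

open IsDiscreteValuationRing

lemma v_unit {x : R} (hx : IsUnit x) : (maximalIdeal R).valuation L (algebraMap R L x) = 1 := by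
  rw [IsDedekindDomain.HeightOneSpectrum.valuation_eq_one_iff_notMem]
  intro h
  exact (IsLocalRing.mem_maximalIdeal x).1 h hx

/-- a curve with an integral equation with a unit discriminant -/
theorem min_good {W₀ : WeierstrassCurve R} (hΔ : IsUnit W₀.Δ) {W : WeierstrassCurve L}
    (hW : W = W₀.map (algebraMap R L)) :
    (W.minimal R).HasGoodReduction R := by
  have hWint : IsIntegral R W := ⟨⟨W₀, hW⟩⟩
  have hvW : (maximalIdeal R).valuation L W.Δ = 1 := by
    rw [hW, map_Δ]
    exact v_unit R hΔ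
  obtain ⟨C, hC⟩ : ∃ C : VariableChange L, W.minimal R = C • W := ⟨_, rfl⟩
  have hmin : IsMinimal R (W.minimal R) := inferInstance
  refine ⟨?_⟩
  obtain ⟨h1, h2⟩ := hmin.val_Δ_maximal
  have e1 : C⁻¹ • W.minimal R = W := by rw [hC, inv_smul_smul]
  have h3 := h2 (j := C⁻¹) (by simp only [e1]; exact hWint)
  simp only [e1, one_smul] at h3
  have hle : valuation_Δ_aux R (W.minimal R) ≤ valuation_Δ_aux R W := by
    rw [← Subtype.coe_le_coe, valuation_Δ_aux_eq_of_isIntegral R W, hvW]
    exact (valuation_Δ_aux R (W.minimal R)).2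
  have h4 := le_antisymm hle (h3 hle)
  have h5 := congrArg Subtype.val h4
  rw [valuation_Δ_aux_eq_of_isIntegral, valuation_Δ_aux_eq_of_isIntegral] at h5
  rw [h5]
  exact hvW

lemma v_quad {Γ : Type*} [LinearOrderedCommGroupWithZero Γ] (v : Valuation L Γ) {x b c : L}
    (hb : v b ≤ 1) (hc : v c ≤ 1) (h : x ^ 2 + b * x = c) : v x ≤ 1 := by
  by_contra hcon
  push Not at hcon
  have h1 : v (x ^ 2) ≤ v x := by
    have e : x ^ 2 = c - b * x := by linear_combination h
    rw [e]
    refine (v.map_sub _ _).trans (max_le (hc.trans hcon.le) ?_)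
    rw [map_mul]
    exact mul_le_of_le_one_left' hb
  rw [map_pow, pow_two] at h1
  have h2 : v x * 1 < v x * v x := by
    apply mul_lt_mul_of_pos_left hcon
    exact lt_trans zero_lt_one hcon
  rw [mul_one] at h2
  exact absurd h1 (not_le.2 h2)

lemma v_root_r {Γ : Type*} [LinearOrderedCommGroupWithZero Γ] (v : Valuation L Γ) {x c y : L} {n : ℕ}
    (hx : 1 < v x) (h : c * x ^ (n + 1) = y) (hy : v y ≤ v x ^ n) : v (c * x) ≤ 1 := by
  have h1 : v (c * x) * v x ^ n ≤ 1 * v x ^ n := by
    rw [one_mul, ← map_pow, ← map_mul, map_pow]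
    have e : c * x * x ^ n = y := by rw [← h]; ring
    rw [e]
    exact hy
  have h2 : 0 < v x ^ n := pow_pos (lt_trans zero_lt_one hx) n
  exact le_of_mul_le_mul_right h1 h2

/-- integrality of the change of variables -/
theorem vc_int {W₁ W₂ : WeierstrassCurve R} (h1 : IsUnit W₁.Δ) (h2 : IsUnit W₂.Δ)
    {C : VariableChange L} (h : W₂.map (algebraMap R L) = C • W₁.map (algebraMap R L)) :
    ∃ C₀ : VariableChange R, W₂ = C₀ • W₁ := by
  set v := (maximalIdeal R).valuation L with hv
  have hR : ∀ a : R, v (algebraMap R L a) ≤ 1 := fun a =>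
    IsDedekindDomain.HeightOneSpectrum.valuation_le_one _ a
  set u : L := ((C.u⁻¹ : Lˣ) : L) with hu
  have hu0 : u ≠ 0 := (C.u⁻¹).ne_zero
  have huinv : (C.u : L) = u⁻¹ := by rw [hu, Units.val_inv_eq_inv_val, inv_inv]
  have hΔ := congrArg WeierstrassCurve.Δ h
  rw [variableChange_Δ, map_Δ, map_Δ, ← hu] at hΔ
  have hvu : v u = 1 := by
    have h3 := congrArg v hΔ
    rw [map_mul, v_unit R h1, v_unit R h2, mul_one, map_pow] at h3
    exact (pow_eq_one_iff_of_nonneg zero_le (by norm_num)).1 h3.symm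
  have hvu' : v u⁻¹ = 1 := by rw [map_inv₀, hvu, inv_one]
  obtain ⟨u0, hu0'⟩ := exists_lift_of_le_one (A := R) (K := L) hvu.le
  obtain ⟨u1, hu1'⟩ := exists_lift_of_le_one (A := R) (K := L) hvu'.le
  have hinj : Function.Injective (algebraMap R L) := IsFractionRing.injective R L
  have hu01 : u1 * u0 = 1 := by
    apply hinj
    rw [map_mul, hu0', hu1', inv_mul_cancel₀ hu0, map_one]
  -- the coordinate `r`
  have hb6 := congrArg WeierstrassCurve.b₆ h
  rw [variableChange_b₆, map_b₆, map_b₆, map_b₄, map_b₂, ← hu] at hb6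
  have hb8 := congrArg WeierstrassCurve.b₈ h
  rw [variableChange_b₈, map_b₈, map_b₈, map_b₆, map_b₄, map_b₂, ← hu] at hb8
  have hr : v C.r ≤ 1 := by
    by_contra hcon
    push Not at hcon
    have hp : ∀ m n : ℕ, m ≤ n → v (C.r) ^ m ≤ v C.r ^ n := fun m n hmn =>
      pow_le_pow_right₀ hcon.le hmn
    have hv1 : ∀ n : ℕ, 1 ≤ v C.r ^ n := fun n => one_le_pow_of_one_le' hcon.le n
    have hterm : ∀ (a : L) (m n : ℕ), v a ≤ 1 → m ≤ n → v (a * C.r ^ m) ≤ v C.r ^ n := by
      intro a m n ha hmn
      rw [map_mul, map_pow]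
      exact (mul_le_of_le_one_left' ha).trans (hp m n hmn)
    have hvn : ∀ n : ℕ, v (n : L) ≤ 1 := by
      intro n
      have := hR n
      rwa [map_natCast] at this
    have h4 : v (4 * C.r) ≤ 1 := by
      refine v_root_r v (n := 2) hcon (y := u⁻¹ ^ 6 * algebraMap R L W₂.b₆ * C.r ^ 0 -
        algebraMap R L W₁.b₆ * C.r ^ 0 - (2 : ℕ) * algebraMap R L W₁.b₄ * C.r ^ 1 -
        algebraMap R L W₁.b₂ * C.r ^ 2) ?_ ?_
      · rw [hb6]
        push_cast
        field_simp
        ring
      · refine (v.map_sub _ _).trans (max_le ((v.map_sub _ _).trans (max_le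
          ((v.map_sub _ _).trans (max_le ?_ ?_)) ?_)) ?_)
        · refine hterm _ 0 2 ?_ (by norm_num)
          rw [map_mul, map_pow, hvu', one_pow, one_mul]
          exact hR _
        · exact hterm _ 0 2 (hR _) (by norm_num)
        · refine hterm _ 1 2 ?_ (by norm_num)
          rw [map_mul]
          exact mul_le_one' (hvn 2) (hR _)
        · exact hterm _ 2 2 (hR _) (by norm_num)
    have h3 : v (3 * C.r) ≤ 1 := by
      refine v_root_r v (n := 3) hcon (y := u⁻¹ ^ 8 * algebraMap R L W₂.b₈ * C.r ^ 0 -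
        algebraMap R L W₁.b₈ * C.r ^ 0 - (3 : ℕ) * algebraMap R L W₁.b₆ * C.r ^ 1 -
        (3 : ℕ) * algebraMap R L W₁.b₄ * C.r ^ 2 - algebraMap R L W₁.b₂ * C.r ^ 3) ?_ ?_
      · rw [hb8]
        push_cast
        field_simp
        ring
      · refine (v.map_sub _ _).trans (max_le ((v.map_sub _ _).trans (max_le
          ((v.map_sub _ _).trans (max_le ((v.map_sub _ _).trans (max_le ?_ ?_)) ?_)) ?_)) ?_)
        · refine hterm _ 0 3 ?_ (by norm_num)
          rw [map_mul, map_pow, hvu', one_pow, one_mul]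
          exact hR _
        · exact hterm _ 0 3 (hR _) (by norm_num)
        · refine hterm _ 1 3 ?_ (by norm_num)
          rw [map_mul]
          exact mul_le_one' (hvn 3) (hR _)
        · refine hterm _ 2 3 ?_ (by norm_num)
          rw [map_mul]
          exact mul_le_one' (hvn 3) (hR _)
        · exact hterm _ 3 3 (hR _) (by norm_num)
    have h5 : v (4 * C.r - 3 * C.r) ≤ 1 := (v.map_sub _ _).trans (max_le h4 h3)
    have e : 4 * C.r - 3 * C.r = C.r := by ring
    rw [e] at h5
    exact absurd h5 (not_le.2 hcon)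
  obtain ⟨r0, hr0⟩ := exists_lift_of_le_one (A := R) (K := L) hr
  -- the coordinate `s`
  have ha2 := congrArg WeierstrassCurve.a₂ h
  rw [variableChange_a₂, map_a₂, map_a₂, map_a₁, ← hu] at ha2
  have hs : v C.s ≤ 1 := by
    refine v_quad (L := L) v (b := algebraMap R L W₁.a₁)
      (c := algebraMap R L (W₁.a₂ + 3 * r0 - u1 ^ 2 * W₂.a₂)) (hR _) (hR _) ?_
    rw [map_sub, map_add, map_mul, map_mul, map_pow, hr0, hu1', ha2]
    have e3 : algebraMap R L 3 = 3 := map_ofNat (algebraMap R L) 3
    rw [e3]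
    field_simp
    ring
  obtain ⟨s0, hs0⟩ := exists_lift_of_le_one (A := R) (K := L) hs
  -- the coordinate `t`
  have ha6 := congrArg WeierstrassCurve.a₆ h
  rw [variableChange_a₆, map_a₆, map_a₆, map_a₄, map_a₃, map_a₂, map_a₁, ← hu] at ha6
  have ht : v C.t ≤ 1 := by
    refine v_quad (L := L) v (b := algebraMap R L (W₁.a₃ + r0 * W₁.a₁))
      (c := algebraMap R L (W₁.a₆ + r0 * W₁.a₄ + r0 ^ 2 * W₁.a₂ + r0 ^ 3 - u1 ^ 6 * W₂.a₆))
      (hR _) (hR _) ?_
    simp only [map_sub, map_add, map_mul, map_pow]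
    rw [hr0, hu1', ha6]
    field_simp
    ring
  obtain ⟨t0, ht0⟩ := exists_lift_of_le_one (A := R) (K := L) ht
  refine ⟨⟨⟨u1, u0, hu01, by rw [mul_comm, hu01]⟩, r0, s0, t0⟩, ?_⟩
  have hC : (⟨⟨u1, u0, hu01, by rw [mul_comm, hu01]⟩, r0, s0, t0⟩ : VariableChange R).map
      (algebraMap R L) = C := by
    ext
    · show algebraMap R L u1 = (C.u : L)
      rw [hu1', huinv]
    · exact hr0
    · exact hs0
    · exact ht0
  have hmap : W₂.map (algebraMap R L) = ((⟨⟨u1, u0, hu01, by rw [mul_comm, hu01]⟩, r0, s0, t0⟩ :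
      VariableChange R) • W₁).map (algebraMap R L) := by
    rw [← WeierstrassCurve.map_variableChange, hC, h]
  exact WeierstrassCurve.map_injective hinj hmap

/-- the local factor at a place of good reduction -/
theorem min_count {W₀ : WeierstrassCurve R} (hΔ : IsUnit W₀.Δ) {W : WeierstrassCurve L}
    (hW : W = W₀.map (algebraMap R L)) [Finite (IsLocalRing.ResidueField R)] :
    aLoc R W = (Nat.card (IsLocalRing.ResidueField R) : ℤ) -
      Nat.card (AP (W₀.map (IsLocalRing.residue R))) ∧
    eLoc R W = Nat.card (IsLocalRing.ResidueField R) := by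
  have hg := min_good R hΔ hW
  unfold aLoc eLoc
  rw [if_pos hg, if_pos hg]
  refine ⟨?_, rfl⟩
  obtain ⟨C, hC⟩ : ∃ C : VariableChange L, W.minimal R = C • W := ⟨_, rfl⟩
  have h1 : ((W.minimal R).integralModel R).map (algebraMap R L) = C • W₀.map (algebraMap R L) := by
    have := baseChange_integralModel_eq R (W.minimal R)
    rw [← hW, ← hC]
    exact this
  have h2 : IsUnit ((W.minimal R).integralModel R).Δ := by
    have h3 := hg.goodReduction
    rw [← integralModel_Δ_eq R (W.minimal R),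
      IsDedekindDomain.HeightOneSpectrum.valuation_eq_one_iff_notMem] at h3
    by_contra h4
    exact h3 ((IsLocalRing.mem_maximalIdeal _).2 h4)
  obtain ⟨C₀, hC₀⟩ := vc_int R hΔ h2 h1
  have h3 : (W.minimal R).reduction R = (C₀.map (IsLocalRing.residue R)) •
      (W₀.map (IsLocalRing.residue R)) := by
    unfold WeierstrassCurve.reduction
    rw [hC₀, ← WeierstrassCurve.map_variableChange]
  have h4 : ((W.minimal R).reduction R).Δ ≠ 0 := by
    unfold WeierstrassCurve.reduction
    rw [map_Δ]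
    exact (h2.map _).ne_zero
  rw [card_point _ h4, h3, Nat.card_congr (AP_equiv _ _)]
  push_cast
  ring

/-- the local factor at some places of additive reduction -/
theorem min_add {W : WeierstrassCurve L} (hΔ : (maximalIdeal R).valuation L W.Δ = WithZero.exp (-3 : ℤ))
    {j : L} (hj : (maximalIdeal R).valuation L j ≤ 1) (h4 : W.c₄ ^ 3 = j * W.Δ) :
    aLoc R W = 0 ∧ eLoc R W = 0 := by
  set v := (maximalIdeal R).valuation L with hv
  obtain ⟨C, hC⟩ : ∃ C : VariableChange L, W.minimal R = C • W := ⟨_, rfl⟩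
  set u : L := ((C.u⁻¹ : Lˣ) : L) with hu
  have hu0 : u ≠ 0 := (C.u⁻¹).ne_zero
  have hd : (W.minimal R).Δ = u ^ 12 * W.Δ := by rw [hC, variableChange_Δ]
  have hc : (W.minimal R).c₄ = u ^ 4 * W.c₄ := by rw [hC, variableChange_c₄]
  have hng : ¬ (W.minimal R).HasGoodReduction R := by
    intro h
    have h1 := h.goodReduction
    rw [hd, map_mul, hΔ, map_pow] at h1
    have h2 : v u ≠ 0 := (Valuation.ne_zero_iff v).2 hu0
    obtain ⟨k, hk⟩ : ∃ k : ℤ, v u = WithZero.exp k := ⟨WithZero.log (v u), (WithZero.exp_log h2).symm⟩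
    rw [hk, ← WithZero.exp_nsmul, ← WithZero.exp_add, WithZero.exp_eq_one] at h1
    simp only [nsmul_eq_mul] at h1
    push_cast at h1
    omega
  have hnm : ¬ (W.minimal R).HasMultiplicativeReduction R := by
    intro h
    have h1 := h.multiplicativeReduction
    have h2 := h.badReduction
    have h3 : (W.minimal R).c₄ ^ 3 = j * (W.minimal R).Δ := by
      rw [hc, hd]
      linear_combination u ^ 12 * h4
    have h5 := congrArg v h3
    rw [map_pow, map_mul] at h5
    have h6 : v (W.minimal R).c₄ = 1 := h1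
    rw [h6, one_pow] at h5
    have h7 : v j * v (W.minimal R).Δ < 1 := by
      refine lt_of_le_of_lt (mul_le_of_le_one_left' hj) h2
    rw [← h5] at h7
    exact lt_irrefl _ h7
  have hns : ¬ (W.minimal R).HasSplitMultiplicativeReduction R := fun h =>
    hnm h.toHasMultiplicativeReduction
  unfold aLoc eLoc
  rw [if_neg hng, if_neg hng, if_neg hns, if_neg hnm]
  exact ⟨rfl, rfl⟩

end Local

end Pool.Agent.Y698
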